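import Pool.Agent.Lib.MP_57ec86_nt.K6

/-! For `x = 1, 2, 3` and large `n` many `y + z = n - x` such that `2y+1` is prime and `2z+1`, `2xyz+1` are
almost primes of bounded order; the only exception is `x = 1`, `n = 2 mod 3`, where `3` always divides. -/

set_option autoImplicit false

namespace Pool.Agent.Results.MP_57ec86_nt.AlmostPrimeTriples

open Finset Filter Pool.Agent.Lib.MP_57ec86_nt Pool.Agent.Lib.MP_d9bc60_nt.UV
  Pool.Agent.Lib.MP_d9bc60_nt.AP

theorem result :
    (∀ x : ℕ, 1 ≤ x → x ≤ 3 → ∃ n₀ : ℕ, ∀ n : ℕ, n₀ ≤ n → (x = 1 → n % 3 ≠ 2) →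
      (n : ℝ) / Real.log n ^ 6 ≤ (Set.ncard {p : ℕ × ℕ | 1 ≤ p.1 ∧ 1 ≤ p.2 ∧ x + p.1 + p.2 = n ∧
        (2 * x + 1).Prime ∧ (2 * p.1 + 1).Prime ∧
        ArithmeticFunction.cardFactors (2 * p.2 + 1) ≤ 29 ∧
        ArithmeticFunction.cardFactors (2 * x * p.1 * p.2 + 1) ≤ 58} : ℝ)) ∧
    (∀ y z : ℕ, (1 + y + z) % 3 = 2 → 3 ∣ (2 * y + 1) * (2 * z + 1) * (2 * y * z + 1)) := by
  classical
  refine ⟨?_, ?_⟩
  · intro x hx1 hx3
    obtain ⟨c, hc, P₀, hP⟩ := k5_count
    have tl : Tendsto (fun n : ℕ => Real.log (n : ℝ)) atTop atTop :=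
      Real.tendsto_log_atTop.comp tendsto_natCast_atTop_atTop
    obtain ⟨n₁, hn₁⟩ := eventually_atTop.1 ((tl.eventually_ge_atTop (32 / c)).and
      (tl.eventually_ge_atTop 1))
    refine ⟨max n₁ (P₀ + 20), fun n hn hmod => ?_⟩
    have hn1 : n₁ ≤ n := (le_max_left _ _).trans hn
    have hn2 : P₀ + 20 ≤ n := (le_max_right _ _).trans hn
    obtain ⟨hl1, hl2⟩ := hn₁ n hn1
    obtain ⟨N, hN⟩ : ∃ N, n = N + x := ⟨n - x, by omega⟩
    obtain ⟨P, hPd⟩ : ∃ P, P + 1 = 2 * N := ⟨2 * N - 1, by omega⟩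
    have hPn : n ≤ P := by omega
    have hP2 : P ≤ 2 * n := by omega
    have hx : ¬ (x % 3 = 1 ∧ N % 3 = 1) := by
      rintro ⟨h1, h2⟩
      have h3 : x = 1 := by omega
      exact hmod h3 (by omega)
    have hcnt := hP P (by omega) (gF x N) (gF_poly x N) (fun p hp => rhoF_le_four x N p hp)
      (densF x N hx) (fun m hm => gF_pos x N m (Finset.mem_Icc.1 hm).1 (by
        have := (Finset.mem_Icc.1 hm).2
        omega))
    set T := (Icc 1 P).filter (fun m => m.Prime ∧ 3 ≤ m ∧ Sft ((P : ℝ) ^ (199 / 5800 : ℝ))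
      (aG (gF x N) m)) with hT
    have hPr : (1 : ℝ) < P := by
      have : (1 : ℕ) < P := by omega
      exact_mod_cast this
    have hnr : (20 : ℝ) ≤ n := by
      have : (20 : ℕ) ≤ n := by omega
      exact_mod_cast this
    -- the analytic part
    have hmain : (n : ℝ) / Real.log n ^ 6 ≤ c * (P : ℝ) / Real.log P ^ 5 := by
      have h1 : Real.log P ≤ 2 * Real.log n := by
        have h2 : (P : ℝ) ≤ (n : ℝ) ^ 2 := by
          have h3 : (P : ℝ) ≤ 2 * n := by exact_mod_cast hP2
          nlinarith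
        have h4 := Real.log_le_log (by linarith) h2
        rw [Real.log_pow] at h4
        push_cast at h4
        exact h4
      have hlP : 0 < Real.log P := Real.log_pos hPr
      have hln : 0 < Real.log n := by linarith
      have h5 : Real.log P ^ 5 ≤ 32 * Real.log n ^ 5 := by
        have := pow_le_pow_left₀ hlP.le h1 5
        calc Real.log P ^ 5 ≤ (2 * Real.log n) ^ 5 := this
          _ = 32 * Real.log n ^ 5 := by ring
      have h6 : (n : ℝ) ≤ P := by exact_mod_cast hPn
      have h7 : 32 ≤ c * Real.log n := by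
        rw [div_le_iff₀ hc] at hl1
        linarith
      rw [div_le_div_iff₀ (by positivity) (by positivity)]
      have h8 : (n : ℝ) * Real.log P ^ 5 ≤ n * (32 * Real.log n ^ 5) :=
        mul_le_mul_of_nonneg_left h5 (by linarith)
      have h9 : (n : ℝ) * (32 * Real.log n ^ 5) ≤ n * (c * Real.log n * Real.log n ^ 5) :=
        mul_le_mul_of_nonneg_left (mul_le_mul_of_nonneg_right h7 (by positivity)) (by linarith)
      have h10 : c * (n : ℝ) * Real.log n ^ 6 ≤ c * P * Real.log n ^ 6 :=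
        mul_le_mul_of_nonneg_right (mul_le_mul_of_nonneg_left h6 hc.le) (by positivity)
      calc (n : ℝ) * Real.log P ^ 5 ≤ n * (c * Real.log n * Real.log n ^ 5) := h8.trans h9
        _ = c * (n : ℝ) * Real.log n ^ 6 := by ring
        _ ≤ c * P * Real.log n ^ 6 := h10
    refine hmain.trans (hcnt.trans ?_)
    -- the injection
    set f : ℕ → ℕ × ℕ := fun m => ((m - 1) / 2, N - (m - 1) / 2) with hf
    set S : Set (ℕ × ℕ) := {p : ℕ × ℕ | 1 ≤ p.1 ∧ 1 ≤ p.2 ∧ x + p.1 + p.2 = n ∧
        (2 * x + 1).Prime ∧ (2 * p.1 + 1).Prime ∧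
        ArithmeticFunction.cardFactors (2 * p.2 + 1) ≤ 29 ∧
        ArithmeticFunction.cardFactors (2 * x * p.1 * p.2 + 1) ≤ 58} with hS
    have hodd : ∀ m ∈ T, ∃ y z : ℕ, m = 2 * y + 1 ∧ 1 ≤ y ∧ 1 ≤ z ∧ y + z = N ∧ f m = (y, z) := by
      intro m hm
      obtain ⟨hmI, hmp, hm3, -⟩ := Finset.mem_filter.1 hm
      have hmP := (Finset.mem_Icc.1 hmI).2
      have ho : Odd m := hmp.odd_of_ne_two (by omega)
      obtain ⟨y, hy⟩ := ho
      refine ⟨y, N - y, by omega, by omega, by omega, by omega, ?_⟩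
      have e1 : (m - 1) / 2 = y := by omega
      simp only [hf]
      rw [e1]
    have hinj : Set.InjOn f (T : Set ℕ) := by
      intro m hm m' hm' heq
      obtain ⟨y, z, h1, -, -, -, h2⟩ := hodd m hm
      obtain ⟨y', z', h1', -, -, -, h2'⟩ := hodd m' hm'
      rw [h2, h2'] at heq
      have := congrArg Prod.fst heq
      simp only at this
      omega
    have hsub : ((T.image f : Finset (ℕ × ℕ)) : Set (ℕ × ℕ)) ⊆ S := by
      intro q hq
      rw [Finset.coe_image] at hq
      obtain ⟨m, hm, rfl⟩ := hq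
      obtain ⟨y, z, h1, hy, hz, hyz, h2⟩ := hodd m hm
      obtain ⟨hmI, hmp, hm3, hsft⟩ := Finset.mem_filter.1 (Finset.mem_coe.1 hm)
      rw [h2]
      have hval : aG (gF x N) m = 2 * ((2 * z + 1) * (2 * x * y * z + 1)) := by
        have e1 : gF x N m = ((2 * ((2 * z + 1) * (2 * x * y * z + 1)) : ℕ) : ℤ) := by
          have hNe : (N : ℤ) = y + z := by exact_mod_cast hyz.symm
          have hme : (m : ℤ) = 2 * y + 1 := by exact_mod_cast h1
          rw [gF, hNe, hme]
          push_cast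
          ring
        rw [aG, e1, Int.toNat_natCast]
      have hzz : (1 : ℝ) < (P : ℝ) ^ (199 / 5800 : ℝ) := Real.one_lt_rpow hPr (by norm_num)
      have o1 : Odd (2 * z + 1) := ⟨z, rfl⟩
      have o2 : Odd (2 * x * y * z + 1) := ⟨x * y * z, by ring⟩
      have d1 : (2 * z + 1) ∣ aG (gF x N) m := by
        rw [hval]; exact ⟨2 * (2 * x * y * z + 1), by ring⟩
      have d2 : (2 * x * y * z + 1) ∣ aG (gF x N) m := by
        rw [hval]; exact ⟨2 * (2 * z + 1), by ring⟩
      have l1 : ((2 * z + 1 : ℕ) : ℝ) ≤ (P : ℝ) ^ 1 := by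
        rw [pow_one]
        have : 2 * z + 1 ≤ P := by omega
        exact_mod_cast this
      have l2 : ((2 * x * y * z + 1 : ℕ) : ℝ) ≤ (P : ℝ) ^ 2 := by
        have hN4 : 4 ≤ N := by omega
        have : 2 * x * y * z + 1 ≤ P ^ 2 := by
          have hP3 : P = 2 * N - 1 := by omega
          have hz1 : (2 * x * y * z + 1 : ℤ) ≤ (P : ℤ) ^ 2 := by
            have hPz : (P : ℤ) = 2 * (y + z) - 1 := by omega
            rw [hPz]
            have a1 : (1 : ℤ) ≤ y := by exact_mod_cast hy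
            have a2 : (1 : ℤ) ≤ z := by exact_mod_cast hz
            have a3 : (x : ℤ) ≤ 3 := by exact_mod_cast hx3
            have a4 : (x : ℤ) * (y * z) ≤ 3 * (y * z) := mul_le_mul_of_nonneg_right a3 (by positivity)
            nlinarith [mul_pos (show (0 : ℤ) < y by linarith) (show (0 : ℤ) < z by linarith),
              sq_nonneg ((y : ℤ) - z)]
          exact_mod_cast hz1
        exact_mod_cast this
      have w1 := k6_omega2 hPr l1 _ (k6_omega hzz o1 d1 hsft)
      have w2 := k6_omega2 hPr l2 _ (k6_omega hzz o2 d2 hsft)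
      refine ⟨hy, hz, ?_, ?_, ?_, ?_, ?_⟩
      · simp only
        omega
      · interval_cases x <;> norm_num
      · simp only
        rw [← h1]
        exact hmp
      · simp only
        omega
      · simp only
        omega
    have hfin : S.Finite := by
      refine Set.Finite.subset (Finset.finite_toSet ((range (n + 1)) ×ˢ (range (n + 1)))) ?_
      rintro ⟨a, b⟩ ⟨h1, h2, h3, -⟩
      simp only at h1 h2 h3
      rw [Finset.mem_coe, Finset.mem_product, Finset.mem_range, Finset.mem_range]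
      constructor
      · simp only
        omega
      · simp only
        omega
    have hle : T.card ≤ S.ncard := by
      rw [← Finset.card_image_of_injOn hinj, ← Set.ncard_coe_finset]
      exact Set.ncard_le_ncard hsub hfin
    exact_mod_cast hle
  · intro y z h
    have key : ∀ a b : ZMod 3, 1 + a + b = 2 → (2 * a + 1) * (2 * b + 1) * (2 * a * b + 1) = 0 := by
      decide
    have h1 : (1 + (y : ZMod 3) + (z : ZMod 3)) = 2 := by
      have h2 : ((1 + y + z : ℕ) : ZMod 3) = ((2 : ℕ) : ZMod 3) := by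
        rw [ZMod.natCast_eq_natCast_iff']
        omega
      push_cast at h2
      exact h2
    have h3 := key _ _ h1
    rw [← ZMod.natCast_eq_zero_iff]
    push_cast
    exact h3

end Pool.Agent.Results.MP_57ec86_nt.AlmostPrimeTriples
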